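import Pool.Agent.H53.GC.Targets

/-!
# MP_6ab439_lc: row CAN (canonization)
-/

set_option autoImplicit false

namespace Pool.Agent.H33.GC

open Pool.Agent.H53.GC Pool.Agent.H68.BP Pool.Agent.H58.SF
open Pool.Agent.H53.RG (ulim ulim_spec cone cone_mem)

private lemma relP_map {V X : Type} [LinearOrder V] {σ : Sig} {𝔸 : Str σ V} {M : ℕ}
    {c : V → V → X} (hs : SplitClosed 𝔸 c) {g : V → V} (hg : StrictMono g)
    (hc : ∀ x y, x ≤ y → c (g x) (g y) = c x y) (s : Option (Fin σ.m))
    (x : Fin (arP σ M s) → V) (hx : relP 𝔸 M s x) : relP 𝔸 M s (fun a => g (x a)) := by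
  cases s with
  | none => trivial
  | some l =>
    exact hs l x (fun a => g (x a)) hx (fun a b hab => hc _ _ (hg.le_iff_le.1 hab))
      fun a b hab => hg.injective hab

theorem pf_CAN : T_CAN := by
  intro σ V X _ 𝔸 M c hX hR hs h hh
  obtain ⟨k, ⟨e⟩⟩ := Finite.exists_equiv_fin X
  have key : ∀ K : Finset V, ∃ g : V → V, StrictMono g ∧
      (∀ x y, x ≤ y → c (g x) (g y) = c x y) ∧
      ∀ v w v' w' : Fin 6 → V, (∀ i, v i ∈ K) → (∀ i, w i ∈ K) → (∀ i, v' i ∈ K) →
        (∀ i, w' i ∈ K) → SameType c (Sum.elim v w) (Sum.elim v' w') →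
        h (fun i => g (v i)) (fun i => g (w i)) = h (fun i => g (v' i)) (fun i => g (w' i)) := by
    intro K
    obtain ⟨g, h1, h2, h3⟩ := hR (6 + 6) k K (fun z =>
      e (h (fun i => z (finSumFinEquiv (Sum.inl i))) (fun i => z (finSumFinEquiv (Sum.inr i)))))
    refine ⟨g, h1, h2, fun v w v' w' hv hw hv' hw' hT => ?_⟩
    have h4 := h3 (fun i => Sum.elim v w (finSumFinEquiv.symm i))
      (fun i => Sum.elim v' w' (finSumFinEquiv.symm i)) (by
        intro i
        rcases finSumFinEquiv.symm i with j | j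
        · exact hv j
        · exact hw j) (by
        intro i
        rcases finSumFinEquiv.symm i with j | j
        · exact hv' j
        · exact hw' j) (fun i j => hT _ _)
    have h5 := e.injective h4
    simp only [Equiv.symm_apply_apply, Sum.elim_inl, Sum.elim_inr] at h5
    exact h5
  choose g hg hc hT using key
  have hu : ∀ v w : Fin 6 → V, ∀ᶠ K in ((cone V : Ultrafilter (Finset V)) : Filter (Finset V)),
      h (fun i => g K (v i)) (fun i => g K (w i)) =
        ulim (cone V) (fun K => h (fun i => g K (v i)) (fun i => g K (w i))) :=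
    fun v w => ulim_spec _ _
  refine ⟨fun v w => ulim (cone V) (fun K => h (fun i => g K (v i)) (fun i => g K (w i))),
    ⟨?_, ?_⟩, ?_⟩
  · intro s k τ v hv hτ
    have h1 : ∀ᶠ K in ((cone V : Ultrafilter (Finset V)) : Filter (Finset V)),
        ∀ a b, h (fun i => g K (v a i)) (fun i => g K (v b i)) =
          ulim (cone V) (fun K => h (fun i => g K (v a i)) (fun i => g K (v b i))) :=
      Filter.eventually_all.2 fun a => Filter.eventually_all.2 fun b => hu (v a) (v b)
    obtain ⟨K, hK⟩ := h1.exists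
    obtain ⟨x, hx1, hx2, hx3⟩ := hh.rel s k τ (fun a l => g K (v a l))
      (fun l => relP_map hs (hg K) (hc K) s _ (hv l)) (fun a b hab => by rw [hτ a b hab])
    exact ⟨x, hx1, hx2, fun a b => (hx3 a b).trans (hK a b)⟩
  · intro r x y x' y'
    obtain ⟨K, hK1, hK2⟩ := ((hu (pat r x y) (pat r x' y')).and
      (hu (pat 0 x y) (pat 0 x' y'))).exists
    have e1 : ∀ (r : Fin 3) (x y : V), (fun i => g K (pat r x y i)) = pat r (g K x) (g K y) :=
      fun r x y => funext fun i => pat_map (g K) r x y i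
    rw [← hK1, ← hK2, e1, e1, e1, e1]
    exact hh.exact r _ _ _ _
  · intro v w v' w' hvw
    have hF : ∀ v : Fin 6 → V,
        ∀ᶠ K in ((cone V : Ultrafilter (Finset V)) : Filter (Finset V)), ∀ i, v i ∈ K := by
      intro v
      refine Filter.eventually_all.2 fun i => ?_
      filter_upwards [cone_mem {v i}] with K hK
      exact hK (Finset.mem_singleton_self _)
    obtain ⟨K, ⟨⟨⟨⟨⟨h1, h2⟩, h3⟩, h4⟩, h5⟩, h6⟩⟩ := ((((((hu v w).and (hu v' w')).and (hF v)).and
      (hF w)).and (hF v')).and (hF w')).exists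
    beta_reduce
    rw [← h1, ← h2]
    exact hT K v w v' w' h3 h4 h5 h6 hvw

end Pool.Agent.H33.GC
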